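import Pool.Agent.H37.CTN.Stmts

/-! Row N46 of the board ctn (MP_b57703_ag). -/

set_option autoImplicit false

namespace Pool.CND

open Finset Polynomial

section
variable {k F L : Type} [Field k] [Field F] [Field L] [Algebra F k] [Algebra k L]

theorem n46_ord_one (P : Place k L) : P.ord 1 = 0 := by
  have h := P.ord_const 1 one_ne_zero
  rwa [map_one] at h

theorem n46_ord_prod {ι : Type} (P : Place k L) (s : Finset ι) (f : ι → L)
    (hf : ∀ i ∈ s, f i ≠ 0) : ∏ i ∈ s, f i ≠ 0 ∧ P.ord (∏ i ∈ s, f i) = ∑ i ∈ s, P.ord (f i) := by
  classical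
  induction s using Finset.induction_on with
  | empty => exact ⟨by simp, by simp [n46_ord_one]⟩
  | insert a t ha ih =>
    obtain ⟨h1, h2⟩ := ih fun i hi => hf i (Finset.mem_insert_of_mem hi)
    have h3 := hf a (Finset.mem_insert_self a t)
    rw [Finset.prod_insert ha, Finset.sum_insert ha]
    exact ⟨mul_ne_zero h3 h1, by rw [P.ord_mul _ _ h3 h1, h2]⟩

/-- extension by zero of coefficients -/
noncomputable def n46x {s N : ℕ} (e : Fin s → Fin N) (c : Fin s → F) : Fin N → F :=
  Function.extend e c 0

theorem n46x_apply {s N : ℕ} (e : Fin s → Fin N) (he : Function.Injective e) (c : Fin s → F)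
    (j : Fin s) : n46x e c (e j) = c j := he.extend_apply c 0 j

theorem n46x_zero {s N : ℕ} (e : Fin s → Fin N) (c : Fin s → F) (i : Fin N)
    (hi : ∀ j, e j ≠ i) : n46x e c i = 0 := by
  unfold n46x
  rw [Function.extend_apply']
  · rfl
  · rintro ⟨j, hj⟩
    exact hi j hj

theorem n46_sum {s N : ℕ} (e : Fin s → Fin N) (he : Function.Injective e) (c : Fin s → F)
    (X : Fin N → L) :
    ∑ j, cst k F L (c j) * X (e j) = ∑ i, cst k F L (n46x e c i) * X i := by
  refine Finset.sum_of_injOn e (fun a _ b _ h => he h) (fun _ _ => Finset.mem_coe.2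
    (Finset.mem_univ _)) ?_ ?_
  · intro i _ hi
    have h : n46x e c i = 0 := n46x_zero e c i fun j hj =>
      hi ⟨j, Finset.mem_coe.2 (Finset.mem_univ _), hj⟩
    rw [h]
    unfold cst
    rw [map_zero, map_zero, zero_mul]
  · intro j _
    rw [n46x_apply e he]

theorem n46_ne {N : ℕ} (X : Fin N → L)
    (hind : ∀ c : Fin N → F, ∑ i, cst k F L (c i) * X i = 0 → c = 0)
    (c : Fin N → F) (i : Fin N) (hi : c i ≠ 0) : ∑ i, cst k F L (c i) * X i ≠ 0 := by
  intro h
  exact hi (by rw [hind c h]; rfl)

end

theorem n46_thm (h1 : S_MO1) (h2 : S_MO3) (h3 : S_N43) : S_N46 := by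
  intro p k F L _ _ _ _ _ _ _ f q r m κ t X α R P hp hchar hf hq hF hm hκ hX hO hA
  have hq2 : 2 ≤ q := by
    rw [hq]
    calc 2 ≤ p := hp.two_le
      _ = p ^ 1 := (pow_one p).symm
      _ ≤ p ^ f := Nat.pow_le_pow_right hp.pos hf
  have hq0 : (0 : ℤ) < q := by exact_mod_cast (by omega : 0 < q)
  refine ⟨?_, ?_, ?_⟩
  · -- the values of `R`
    rintro c ⟨i₀, hi₀, hc₀⟩
    have hfac : ∀ d : Fin (r + 1) → F,
        (∑ i, cst k F L (c i) * X i) + ∑ j, cst k F L (d j) * lowX X j =
          ∑ i, cst k F L ((c + n46x (lowi m) d) i) * X i := by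
      intro d
      have he : Function.Injective (lowi (r := r) m) := by
        intro a b hab
        have := congrArg Fin.val hab
        exact Fin.ext this
      have h4 : ∑ j, cst k F L (d j) * lowX X j = ∑ i, cst k F L (n46x (lowi m) d i) * X i :=
        n46_sum (lowi m) he d X
      rw [h4, ← Finset.sum_add_distrib]
      refine Finset.sum_congr rfl fun i _ => ?_
      unfold cst
      rw [Pi.add_apply, map_add, map_add, add_mul]
    have hi₁ : ∀ d : Fin (r + 1) → F, (c + n46x (lowi m) d) i₀ ≠ 0 := by
      intro d
      have h4 : n46x (lowi (r := r) m) d i₀ = 0 := by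
        apply n46x_zero
        intro j hj
        have h5 : (lowi m j).val = i₀.val := congrArg Fin.val hj
        have h6 : (lowi m j).val = j.val := rfl
        have h7 := j.isLt
        omega
      rw [Pi.add_apply, h4, add_zero]
      exact hc₀
    have hne : ∀ d : Fin (r + 1) → F,
        (∑ i, cst k F L (c i) * X i) + ∑ j, cst k F L (d j) * lowX X j ≠ 0 := by
      intro d
      rw [hfac d]
      exact n46_ne X hX.ind _ i₀ (hi₁ d)
    have hord : ∀ d : Fin (r + 1) → F,
        ((q : ℤ) ^ (r + m + 1) - (q : ℤ) ^ (r + 1)) *
          P.ord ((∑ i, cst k F L (c i) * X i) + ∑ j, cst k F L (d j) * lowX X j) = P.ord t := by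
      intro d
      rw [hfac d]
      exact hO.top _ ⟨i₀, hi₀, hi₁ d⟩
    obtain ⟨h5, h6⟩ := n46_ord_prod P Finset.univ (fun d : Fin (r + 1) → F =>
      (∑ i, cst k F L (c i) * X i) + ∑ j, cst k F L (d j) * lowX X j) fun d _ => hne d
    rw [hA.prod]
    refine ⟨h5, ?_⟩
    rw [h6]
    have hcard : ((Finset.univ : Finset (Fin (r + 1) → F)).card : ℤ) = (q : ℤ) ^ (r + 1) := by
      rw [Finset.card_univ, Fintype.card_fun, Fintype.card_fin, ← Nat.card_eq_fintype_card, hF]
      push_cast
      rfl
    have h7 : (q : ℤ) ^ (r + 1) * (((q : ℤ) ^ m - 1) * ∑ d : Fin (r + 1) → F,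
        P.ord ((∑ i, cst k F L (c i) * X i) + ∑ j, cst k F L (d j) * lowX X j)) =
        (q : ℤ) ^ (r + 1) * P.ord t := by
      rw [← mul_assoc, Finset.mul_sum]
      have h8 : (q : ℤ) ^ (r + 1) * ((q : ℤ) ^ m - 1) =
          (q : ℤ) ^ (r + m + 1) - (q : ℤ) ^ (r + 1) := by ring
      rw [h8, Finset.sum_congr rfl fun d _ => hord d, Finset.sum_const, nsmul_eq_mul, hcard]
    exact mul_left_cancel₀ (pow_ne_zero _ hq0.ne') h7
  · -- the residue
    let e : Fin r → Fin (r + m + 1) := fun j => lowi m ((0 : Fin (r + 1)).succAbove j)
    have hev : ∀ j, (e j).val = j.val + 1 := by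
      intro j
      show ((0 : Fin (r + 1)).succAbove j).val = j.val + 1
      rw [Fin.zero_succAbove, Fin.val_succ]
    have he : Function.Injective e := by
      intro a b hab
      have := congrArg Fin.val hab
      rw [hev, hev] at this
      exact Fin.ext (by omega)
    have hN : ∀ j : Fin r, ∃ τ : k, X (e j) = algebraMap k L τ ∨
        -P.ord t ≤ (q : ℤ) * P.ord (X (e j) - algebraMap k L τ) := by
      intro j
      refine h3 p k F L f q r m κ t X P hp hchar hf hq hF hm hκ hX hO (e j) ?_ ?_
      · intro h
        have h4 := congrArg Fin.val h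
        rw [hev] at h4
        simp at h4
      · rw [hev]
        exact j.isLt
    choose τ hτ using hN
    obtain ⟨h4, h5⟩ := h1 p k F L f q r P (fun j => X (e j)) (fun _ => 0) hp hchar hf hq hF (by
      intro i c hci _
      rw [n46_sum e he c X]
      refine ⟨n46_ne X hX.ind _ (e i) (by rw [n46x_apply e he]; exact hci), ?_⟩
      refine hO.mid _ ?_ ⟨e i, ?_, by rw [n46x_apply e he]; exact hci⟩
      · intro l hl
        apply n46x_zero
        intro j hj
        have h6 := congrArg Fin.val hj
        rw [hev] at h6
        have := j.isLt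
        omega
      · intro h
        have h6 := congrArg Fin.val h
        rw [hev] at h6
        simp at h6)
    have h5' : P.ord (Mo q r fun j => X (e j)) = 0 := by
      rw [h5]
      simp
    have hB : ∀ y : ℤ, -P.ord t ≤ (q : ℤ) * y ↔ -(P.ord t / (q : ℤ)) ≤ y := by
      intro y
      constructor
      · intro h
        have h6 : -y ≤ P.ord t / (q : ℤ) := by
          rw [Int.le_ediv_iff_mul_le hq0]
          linarith
        linarith
      · intro h
        have h6 : -y ≤ P.ord t / (q : ℤ) := by linarith
        rw [Int.le_ediv_iff_mul_le hq0] at h6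
        linarith
    have hBpos : 0 < -(P.ord t / (q : ℤ)) := by
      have h6 := Int.ediv_neg_of_neg_of_pos hO.neg hq0
      linarith
    have hmap : Mo q r (fun j => algebraMap k L (τ j)) = algebraMap k L (Mo q r τ) := by
      unfold Mo
      rw [RingHom.map_det]
      congr 1
      ext i j
      simp
    have h7 := h2 k L P q r (fun j => X (e j)) (fun j => algebraMap k L (τ j))
      (-(P.ord t / (q : ℤ))) (by omega) hBpos.le (by
        intro j
        right
        have h8 : X (e j) = ∑ i, cst k F L ((Pi.single (e j) 1 : Fin (r + m + 1) → F) i) * X i := by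
          rw [Finset.sum_eq_single (e j)]
          · rw [Pi.single_eq_same]
            unfold cst
            rw [map_one, map_one, one_mul]
          · intro i _ hi
            rw [Pi.single_eq_of_ne hi]
            simp
          · intro h
            exact absurd (Finset.mem_univ _) h
        rw [h8]
        refine le_of_eq (hO.mid _ ?_ ⟨e j, ?_, ?_⟩).symm
        · intro l hl
          apply Pi.single_eq_of_ne
          intro h
          have h9 := congrArg Fin.val h
          rw [hev] at h9
          have := j.isLt
          omega
        · intro h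
          have h9 := congrArg Fin.val h
          rw [hev] at h9
          simp at h9
        · simp) (by
        intro j
        by_cases h : τ j = 0
        · left
          rw [h, map_zero]
        · right
          rw [P.ord_const _ h]) (by
        intro j
        rcases hτ j with h | h
        · exact Or.inl h
        · exact Or.inr ((hB _).1 h))
    rw [hmap] at h7
    refine ⟨Mo q r τ, ?_, ?_⟩
    · intro h8
      rw [h8, map_zero, sub_zero, h5'] at h7
      rcases h7 with h7 | h7
      · exact h4 h7
      · linarith
    · rcases h7 with h7 | h7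
      · exact Or.inl h7
      · exact Or.inr ((hB _).2 h7)
  · -- the other minors
    intro i hi
    have hr : 0 < r := by
      by_contra h
      have h4 : r = 0 := by omega
      subst h4
      apply hi
      ext
      have := i.isLt
      simp
    let e : Fin r → Fin (r + m + 1) := fun j => lowi m (i.succAbove j)
    have hev : ∀ j, (e j).val = (i.succAbove j).val := fun j => rfl
    have he : Function.Injective e := by
      intro a b hab
      have := congrArg Fin.val hab
      rw [hev, hev] at this
      exact Fin.succAbove_right_injective (Fin.ext this)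
    have hlt : ∀ j, (e j).val < r + 1 := fun j => (i.succAbove j).isLt
    have he0 : ∀ j : Fin r, (e j).val = 0 ↔ j.val = 0 := by
      intro j
      rw [hev]
      have hi0 : 0 < i.val := Nat.pos_of_ne_zero fun h => hi (Fin.ext h)
      rw [Fin.succAbove]
      split_ifs with h
      · simp
      · rw [Fin.lt_def] at h
        simp at h
        simp
        omega
    obtain ⟨h4, h5⟩ := h1 p k F L f q r P (fun j => X (e j))
      (fun j => if j.val = 0 then P.ord (X 0) else 0) hp hchar hf hq hF (by
      intro j c hcj hc
      rw [n46_sum e he c X]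
      refine ⟨n46_ne X hX.ind _ (e j) (by rw [n46x_apply e he]; exact hcj), ?_⟩
      by_cases hj : j.val = 0
      · rw [if_pos hj]
        have hej : e j = 0 := Fin.ext ((he0 j).2 hj)
        have h6 : ∑ l, cst k F L (n46x e c l) * X l = cst k F L (c j) * X 0 := by
          rw [Finset.sum_eq_single (0 : Fin (r + m + 1))]
          · rw [← hej, n46x_apply e he]
          · intro l _ hl
            have h7 : n46x e c l = 0 := by
              by_cases hex : ∃ j', e j' = l
              · obtain ⟨j', rfl⟩ := hex
                rw [n46x_apply e he]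
                apply hc
                rw [Fin.lt_def, hj]
                apply Nat.pos_of_ne_zero
                intro h8
                exact hl (Fin.ext ((he0 j').2 h8))
              · push Not at hex
                exact n46x_zero e c l hex
            rw [h7]
            simp
          · intro h
            exact absurd (Finset.mem_univ _) h
        rw [h6]
        have hX0 : X 0 ≠ 0 := by
          have h7 := n46_ne X hX.ind (Pi.single (0 : Fin (r + m + 1)) (1 : F)) 0 (by simp)
          intro h8
          apply h7
          rw [Finset.sum_eq_single (0 : Fin (r + m + 1))]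
          · rw [h8, mul_zero]
          · intro l _ hl
            rw [Pi.single_eq_of_ne hl]
            simp
          · intro h
            exact absurd (Finset.mem_univ _) h
        have hc0 : algebraMap F k (c j) ≠ 0 := by
          rw [_root_.map_ne_zero]
          exact hcj
        have hc1 : cst k F L (c j) ≠ 0 := by
          unfold cst
          rw [_root_.map_ne_zero]
          exact hc0
        rw [P.ord_mul _ _ hc1 hX0]
        have h9 : P.ord (cst k F L (c j)) = 0 := P.ord_const _ hc0
        rw [h9, zero_add]
      · rw [if_neg hj]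
        refine hO.mid _ ?_ ⟨e j, ?_, by rw [n46x_apply e he]; exact hcj⟩
        · intro l hl
          apply n46x_zero
          intro j' hj'
          have h6 := congrArg Fin.val hj'
          have := hlt j'
          omega
        · intro h
          have h6 := congrArg Fin.val h
          exact hj ((he0 j).1 h6))
    refine ⟨h4, ?_⟩
    have h6 : P.ord (Mo q r fun j => X (e j)) = P.ord (X 0) := by
      rw [h5, Finset.sum_eq_single (⟨0, hr⟩ : Fin r)]
      · simp
      · intro l _ hl
        rw [if_neg]
        · simp
        · intro h
          exact hl (Fin.ext h)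
      · intro h
        exact absurd (Finset.mem_univ _) h
    exact h6

end Pool.CND
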